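import Pool.Agent.R289.Blk

set_option autoImplicit false

/-!
# A vague-ergodic measure whose convolution operators are not mean ergodic

On the discrete (amenable) group `G = ℤ × S₃` let `z` be the generator of `ℤ`, let `s ≠ t` be two
transpositions and `N = (1 - s) t (1 + s)`, so that `N² = 0`. The finitely supported measure
`μ = z + (z - 1) N` satisfies
`(μ + μ² + ⋯ + μⁿ) / n = (z + ⋯ + zⁿ) / n + (zⁿ - (1 + z + ⋯ + z ^ (n-1)) / n) N`,
which tends to `0` vaguely. The convolution operators do not converge strongly because of `zⁿ N`.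

For a discrete group `G` one has `M(G) = ℓ¹(G)`, `C₀(G) = c₀(G)` and `L^p(G) = ℓ^p(G)`.
-/

namespace Pool.Agent.Results.MP_ec348e_an.VagueNotMean

open scoped ENNReal
open Filter Topology Pool.Agent.R289.Conv Pool.Agent.R289.Blk

/-- The complex measure `μ` on the discrete group `G`, a function with `∑ |μ(g)| < ∞`, is
vague-ergodic: there is a complex measure `μc` such that for every `h ∈ C₀(G)` the integrals of `h`
with respect to `(μ + μ² + ⋯ + μⁿ) / n` (convolution powers) tend to that with respect to `μc`. -/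
def VagueErgodic {G : Type} [Group G] (μ : G → ℂ) : Prop :=
  ∃ μc : G → ℂ, Summable (fun g => ‖μc g‖) ∧ ∀ h : G → ℂ, Tendsto h cofinite (𝓝 0) →
    Tendsto (fun n : ℕ => ∑' g, ((n : ℂ)⁻¹ * ∑ k ∈ Finset.range n, cpow μ (k + 1) g) * h g) atTop
      (𝓝 (∑' g, μc g * h g))

/-- The bounded operator `T` is mean ergodic: the means `(T + T² + ⋯ + Tⁿ) / n` converge in the
strong operator topology. -/
def MeanErgodic {E : Type} [NormedAddCommGroup E] [NormedSpace ℂ E] (T : E →L[ℂ] E) : Prop :=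
  ∃ P : E →L[ℂ] E, ∀ x : E,
    Tendsto (fun n : ℕ => (n : ℂ)⁻¹ • ∑ k ∈ Finset.range n, (T ^ (k + 1)) x) atTop (𝓝 (P x))

/-- the measure -/
noncomputable def mu : MonoidAlgebra ℂ GG := z + (z - 1) * N

theorem zN_comm : z * N = N * z := z_comm N

theorem mu_pow (n : ℕ) : mu ^ (n + 1) = z ^ (n + 1) + ((n + 1 : ℕ) : ℂ) • (z ^ n * (z - 1) * N) := by
  have hW : (z - 1) * N * ((z - 1) * N) = 0 := by
    have h1 : N * (z - 1) = (z - 1) * N := by rw [mul_sub, sub_mul, zN_comm, mul_one, one_mul]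
    calc (z - 1) * N * ((z - 1) * N) = (z - 1) * (N * (z - 1)) * N := by noncomm_ring
      _ = (z - 1) * (z - 1) * (N * N) := by rw [h1]; noncomm_ring
      _ = 0 := by rw [N_sq, mul_zero]
  have hzW : (z - 1) * N * z = z * ((z - 1) * N) := by
    rw [z_comm ((z - 1) * N)]
  induction n with
  | zero =>
    simp only [zero_add, pow_one, pow_zero, one_mul, Nat.cast_one, one_smul]
    rfl
  | succ n ih =>
    rw [pow_succ, ih]
    set W := (z - 1) * N with hWdef
    have e1 : z ^ n * (z - 1) * N = z ^ n * W := by rw [hWdef, mul_assoc]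
    have e2 : z ^ (n + 1) * (z - 1) * N = z ^ (n + 1) * W := by rw [hWdef, mul_assoc]
    have e3 : mu = z + W := rfl
    rw [e1, e2, e3, add_mul, mul_add, smul_mul_assoc, mul_add, mul_assoc (z ^ n) W z, hzW,
      mul_assoc (z ^ n) W W, hW, mul_zero, add_zero, ← pow_succ, ← mul_assoc (z ^ n) z W,
      ← pow_succ, add_assoc]
    congr 1
    rw [show ((n + 1 + 1 : ℕ) : ℂ) = 1 + ((n + 1 : ℕ) : ℂ) by push_cast; ring, add_smul, one_smul]

theorem sum_pow (n : ℕ) : ∑ k ∈ Finset.range n, mu ^ (k + 1) =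
    ∑ k ∈ Finset.range n, z ^ (k + 1) + ((n : ℂ) • (z ^ n * N) - ∑ k ∈ Finset.range n, z ^ k * N) := by
  induction n with
  | zero => simp
  | succ n ih =>
    rw [Finset.sum_range_succ, ih, mu_pow, Finset.sum_range_succ, Finset.sum_range_succ]
    have e : z ^ n * (z - 1) * N = z ^ (n + 1) * N - z ^ n * N := by
      rw [pow_succ]; noncomm_ring
    rw [e, smul_sub]
    have e2 : ((n + 1 : ℕ) : ℂ) • (z ^ n * N) = (n : ℂ) • (z ^ n * N) + z ^ n * N := by
      push_cast
      rw [add_smul, one_smul]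
    rw [e2]
    abel

/-- integration of `h` against the means -/
theorem ev_mean (h : GG → ℂ) (n : ℕ) (hn : n ≠ 0) :
    ev h ((n : ℂ)⁻¹ • ∑ k ∈ Finset.range n, mu ^ (k + 1)) =
      (n : ℂ)⁻¹ * ∑ k ∈ Finset.range n, h (Multiplicative.ofAdd ((k + 1 : ℕ) : ℤ), 1) +
      (hN h n - (n : ℂ)⁻¹ * ∑ k ∈ Finset.range n, hN h k) := by
  rw [sum_pow, map_smul, map_add, map_sub, map_smul, map_sum, map_sum, smul_eq_mul, smul_eq_mul,
    ev_zN]
  simp only [ev_z, ev_zN]
  have : (n : ℂ) ≠ 0 := Nat.cast_ne_zero.2 hn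
  field_simp

theorem coeff_mean (n : ℕ) (g : GG) :
    ((n : ℂ)⁻¹ • ∑ k ∈ Finset.range n, mu ^ (k + 1)).coeff g =
      (n : ℂ)⁻¹ * ∑ k ∈ Finset.range n, cpow mu.coeff (k + 1) g := by
  rw [MonoidAlgebra.coeff_smul, Finsupp.smul_apply, smul_eq_mul, MonoidAlgebra.coeff_sum,
    Finsupp.finsetSum_apply]
  congr 1
  refine Finset.sum_congr rfl fun k _ => ?_
  rw [coeff_pow]

theorem tendsto_hN (h : GG → ℂ) (hh : Tendsto h cofinite (𝓝 0)) :
    (∀ x : Equiv.Perm (Fin 3),
      Tendsto (fun k : ℕ => h (Multiplicative.ofAdd (k : ℤ), x)) atTop (𝓝 0)) ∧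
    Tendsto (hN h) atTop (𝓝 0) := by
  have h1 : ∀ x : Equiv.Perm (Fin 3),
      Tendsto (fun k : ℕ => h (Multiplicative.ofAdd (k : ℤ), x)) atTop (𝓝 0) := by
    intro x
    refine hh.comp ?_
    rw [← Nat.cofinite_eq_atTop]
    refine Function.Injective.tendsto_cofinite fun a b hab => ?_
    have h2 : (a : ℤ) = (b : ℤ) := congrArg (fun q : GG => Multiplicative.toAdd q.1) hab
    exact_mod_cast h2
  refine ⟨h1, ?_⟩
  have := (((h1 (Equiv.swap 1 2)).add (h1 (Equiv.swap 1 2 * Equiv.swap 0 1))).sub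
    (h1 (Equiv.swap 0 1 * Equiv.swap 1 2))).sub
    (h1 (Equiv.swap 0 1 * Equiv.swap 1 2 * Equiv.swap 0 1))
  simp only [add_zero, sub_zero] at this
  exact this

theorem cesaro (u : ℕ → ℂ) (hu : Tendsto u atTop (𝓝 0)) :
    Tendsto (fun n : ℕ => (n : ℂ)⁻¹ * ∑ k ∈ Finset.range n, u k) atTop (𝓝 0) := by
  have := hu.cesaro_smul
  refine this.congr fun n => ?_
  rw [Complex.real_smul]
  push_cast
  rfl

theorem tendsto_mean (h : GG → ℂ) (hh : Tendsto h cofinite (𝓝 0)) :
    Tendsto (fun n : ℕ => ev h ((n : ℂ)⁻¹ • ∑ k ∈ Finset.range n, mu ^ (k + 1))) atTop (𝓝 0) := by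
  obtain ⟨h1, h2⟩ := tendsto_hN h hh
  have h3 := cesaro (fun k => h (Multiplicative.ofAdd ((k + 1 : ℕ) : ℤ), 1))
    ((h1 1).comp (tendsto_add_atTop_nat 1))
  have h4 := h3.add (h2.sub (cesaro _ h2))
  rw [sub_zero, add_zero] at h4
  refine h4.congr' ?_
  filter_upwards [eventually_ne_atTop 0] with n hn
  rw [ev_mean h n hn]

/-- There are a discrete group `G` and a finitely supported complex measure `μ` on `G` which is
vague-ergodic, such that for every `1 < p < ∞` the convolution operator `λ_p(μ) f = μ * f` on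
`ℓ^p(G)` is not mean ergodic. -/
theorem result : ∃ (G : Type) (_ : Group G) (μ : G → ℂ), (Function.support μ).Finite ∧
    VagueErgodic μ ∧
    ∀ (p : ℝ≥0∞) [Fact (1 ≤ p)], 1 < p → p < ∞ →
      ∃ T : Ell G p →L[ℂ] Ell G p, (∀ f x, T f x = conv μ f x) ∧ ¬ MeanErgodic T := by
  refine ⟨GG, inferInstance, mu.coeff, ?_, ⟨0, ?_, ?_⟩, ?_⟩
  · exact mu.coeff.hasFiniteSupport
  · simp
  · intro h hh
    have := tendsto_mean h hh
    simp only [Pi.zero_apply, zero_mul, tsum_zero]
    refine this.congr fun n => ?_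
    show ∑' g, _ * h g = _
    refine tsum_congr fun g => ?_
    rw [coeff_mean]
  · intro p _ hp1 hp2
    have hp : 0 < p.toReal := ENNReal.toReal_pos (by positivity) hp2.ne
    refine ⟨lam hp mu, fun f x => lam_apply hp mu f x, ?_⟩
    rintro ⟨P, hP⟩
    have h1 := hP (delta p)
    have h2 : ∀ n : ℕ, (n : ℂ)⁻¹ • ∑ k ∈ Finset.range n, ((lam hp mu) ^ (k + 1)) (delta p) =
        lam hp ((n : ℂ)⁻¹ • ∑ k ∈ Finset.range n, mu ^ (k + 1)) (delta p) := by
      intro n
      rw [map_smul, map_sum]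
      simp only [map_pow]
      rw [smul_apply]
      congr 1
      have : ∀ s : Finset ℕ, ∑ k ∈ s, ((lam hp mu) ^ (k + 1)) (delta p) =
          (∑ k ∈ s, (lam hp mu) ^ (k + 1)) (delta p) := by
        intro s
        induction s using Finset.induction_on with
        | empty => simp
        | insert a s ha ih =>
          rw [Finset.sum_insert ha, Finset.sum_insert ha, ih]; rfl
      exact this _
    simp only [h2] at h1
    have hcoord : ∀ (n : ℕ) (g : GG),
        lam hp ((n : ℂ)⁻¹ • ∑ k ∈ Finset.range n, mu ^ (k + 1)) (delta p) g =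
          ev (fun x => if x = g then 1 else 0)
            ((n : ℂ)⁻¹ • ∑ k ∈ Finset.range n, mu ^ (k + 1)) := by
      intro n g
      rw [lam_delta]
      show _ = ∑' x, _
      rw [tsum_eq_single g]
      · simp
      · intro x hx
        show _ * (if x = g then (1 : ℂ) else 0) = 0
        rw [if_neg hx, mul_zero]
    -- the limit is zero
    have hzero : P (delta p) = 0 := by
      ext g
      have h3 : Tendsto (fun n : ℕ => (lam hp ((n : ℂ)⁻¹ • ∑ k ∈ Finset.range n, mu ^ (k + 1))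
          (delta p) : GG → ℂ) g) atTop (𝓝 (P (delta p) g)) := by
        have h5 := tendsto_iff_norm_sub_tendsto_zero.1 h1
        rw [tendsto_iff_norm_sub_tendsto_zero]
        refine squeeze_zero (fun _ => norm_nonneg _) (fun n => ?_) h5
        exact lp.norm_apply_le_norm (E := fun _ : GG => ℂ) (p := p) (by positivity)
          (lam hp ((n : ℂ)⁻¹ • ∑ k ∈ Finset.range n, mu ^ (k + 1)) (delta p) - P (delta p)) g
      simp only [hcoord] at h3
      refine tendsto_nhds_unique h3 (tendsto_mean _ ?_)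
      refine tendsto_const_nhds.congr' ?_
      have : {x : GG | x ≠ g} ∈ (cofinite : Filter GG) := by
        rw [mem_cofinite]
        simp
      filter_upwards [this] with x hx
      rw [if_neg hx]
    rw [hzero] at h1
    have h6 := (tendsto_zero_iff_norm_tendsto_zero.1 h1).eventually (gt_mem_nhds one_pos)
    obtain ⟨n, hn, hn0⟩ := (h6.and (eventually_ne_atTop 0)).exists
    have h7 := lp.norm_apply_le_norm (E := fun _ : GG => ℂ) (p := p) (by positivity)
      (lam hp ((n : ℂ)⁻¹ • ∑ k ∈ Finset.range n, mu ^ (k + 1)) (delta p))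
      (Multiplicative.ofAdd (n : ℤ), Equiv.swap 1 2)
    rw [hcoord, ev_mean _ n hn0] at h7
    have e1 : ∀ k : ℕ, (if ((Multiplicative.ofAdd ((k + 1 : ℕ) : ℤ), 1) : GG) =
        (Multiplicative.ofAdd (n : ℤ), Equiv.swap 1 2) then (1 : ℂ) else 0) = 0 := by
      intro k
      rw [if_neg]
      intro h
      have h' : (1 : Equiv.Perm (Fin 3)) = Equiv.swap 1 2 := congrArg Prod.snd h
      exact absurd h' (by decide)
    have e2 : ∀ k : ℕ, k ≠ n → hN (fun x => if x = ((Multiplicative.ofAdd (n : ℤ),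
        Equiv.swap 1 2) : GG) then (1 : ℂ) else 0) k = 0 := by
      intro k hk
      have h0 : ∀ y : Equiv.Perm (Fin 3), ((Multiplicative.ofAdd (k : ℤ), y) : GG) ≠
          (Multiplicative.ofAdd (n : ℤ), Equiv.swap 1 2) := by
        intro y h
        apply hk
        have h' : (k : ℤ) = (n : ℤ) := congrArg (fun q : GG => Multiplicative.toAdd q.1) h
        exact_mod_cast h'
      simp only [hN, if_neg (h0 _)]
      ring
    have e3 : hN (fun x => if x = ((Multiplicative.ofAdd (n : ℤ),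
        Equiv.swap 1 2) : GG) then (1 : ℂ) else 0) n = 1 := by
      have h0 : ∀ y : Equiv.Perm (Fin 3), y ≠ Equiv.swap 1 2 →
          ((Multiplicative.ofAdd (n : ℤ), y) : GG) ≠
          (Multiplicative.ofAdd (n : ℤ), Equiv.swap 1 2) := by
        intro y hy h
        exact hy (congrArg Prod.snd h)
      simp only [hN]
      rw [if_neg (h0 (Equiv.swap 1 2 * Equiv.swap 0 1) (by decide)),
        if_neg (h0 (Equiv.swap 0 1 * Equiv.swap 1 2) (by decide)),
        if_neg (h0 (Equiv.swap 0 1 * Equiv.swap 1 2 * Equiv.swap 0 1) (by decide))]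
      simp
    have e4 : ∑ k ∈ Finset.range n, hN (fun x => if x = ((Multiplicative.ofAdd (n : ℤ),
        Equiv.swap 1 2) : GG) then (1 : ℂ) else 0) k = 0 :=
      Finset.sum_eq_zero fun k hk => e2 k (Finset.mem_range.1 hk).ne
    rw [Finset.sum_congr rfl fun k _ => e1 k, e3, e4] at h7
    simp only [Finset.sum_const_zero, mul_zero, sub_zero, zero_add, norm_one] at h7
    exact absurd hn (not_lt.2 h7)

end Pool.Agent.Results.MP_ec348e_an.VagueNotMean
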